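import Mathlib

/-!
# Residue labels

Labels `g = (p, q, z)` over `K = ZMod (2^(n+1))`, with the Heisenberg cocycle
`h(g, g') = p q' - q p' + z + z'`.
-/

set_option autoImplicit false

namespace Pool.Agent.H42F

/-- The ring of residues. -/
abbrev K (n : ℕ) : Type := ZMod (2 ^ (n + 1))

/-- Parity. -/
def par (n : ℕ) : K n →+* ZMod 2 :=
  ZMod.castHom (dvd_pow_self 2 (Nat.succ_ne_zero n)) (ZMod 2)

theorem isUnit_of_par {n : ℕ} {x : K n} (h : par n x = 1) : IsUnit x := by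
  have hx : ((x.val : ℕ) : K n) = x := ZMod.natCast_zmod_val x
  rw [← hx] at h ⊢
  rw [map_natCast] at h
  rw [ZMod.isUnit_iff_coprime]
  apply Nat.Coprime.pow_right
  rw [Nat.coprime_two_right]
  rw [Nat.odd_iff]
  have h2 : ((x.val : ℕ) : ZMod 2) = ((1 : ℕ) : ZMod 2) := by simpa using h
  rw [ZMod.natCast_eq_natCast_iff] at h2
  exact h2

theorem inv_of_par {n : ℕ} {x : K n} (h : par n x = 1) : x * x⁻¹ = 1 :=
  ZMod.mul_inv_of_unit x (isUnit_of_par h)

theorem par_inv {n : ℕ} {x : K n} (h : par n x = 1) : par n x⁻¹ = 1 := by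
  have h1 := congrArg (par n) (inv_of_par h)
  rw [map_mul, map_one, h, one_mul] at h1
  exact h1

/-- The alternating form. -/
def Bf {n : ℕ} (g h : Fin 3 → K n) : K n := g 0 * h 1 - g 1 * h 0

/-- The pairs of labels of colour `c`. -/
def Pk {n : ℕ} (c : K n) (g h : Fin 3 → K n) : Prop :=
  par n (Bf g h) = 1 ∧ par n (g 2) = 0 ∧ par n (h 2) = 0 ∧ Bf g h + g 2 + h 2 = c

/-- The first label of the triple. -/
def Ff {n : ℕ} (cA cB cC cD : K n) (g2 g3 : Fin 3 → K n) : Fin 3 → K n :=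
  ![(-(Bf g2 g3 + cD - cC) * g3 0 + (cC - cB - (cA - (Bf g2 g3 + cD - cC) - g2 2)) * g2 0)
      * (Bf g2 g3)⁻¹,
    (-(Bf g2 g3 + cD - cC) * g3 1 + (cC - cB - (cA - (Bf g2 g3 + cD - cC) - g2 2)) * g2 1)
      * (Bf g2 g3)⁻¹,
    cA - (Bf g2 g3 + cD - cC) - g2 2]

theorem Ff_eq {n : ℕ} {cA cB cC cD : K n} {g1 g2 g3 : Fin 3 → K n}
    (h12 : Bf g1 g2 = Bf g2 g3 + cD - cC) (hz : g1 2 = cA - Bf g1 g2 - g2 2)
    (h13 : Bf g1 g3 = cC - cB - g1 2) (hp : par n (Bf g2 g3) = 1) :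
    Ff cA cB cC cD g2 g3 = g1 := by
  have hu := inv_of_par hp
  have e1 : Bf g2 g3 + cD - cC = Bf g1 g2 := h12.symm
  have e2 : cA - Bf g1 g2 - g2 2 = g1 2 := hz.symm
  have e3 : cC - cB - g1 2 = Bf g1 g3 := h13.symm
  unfold Ff
  rw [e1, e2, e3]
  funext i
  fin_cases i
  · show (-Bf g1 g2 * g3 0 + Bf g1 g3 * g2 0) * (Bf g2 g3)⁻¹ = g1 0
    have : -Bf g1 g2 * g3 0 + Bf g1 g3 * g2 0 = g1 0 * Bf g2 g3 := by
      unfold Bf; ring
    rw [this, mul_assoc, hu, mul_one]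
  · show (-Bf g1 g2 * g3 1 + Bf g1 g3 * g2 1) * (Bf g2 g3)⁻¹ = g1 1
    have : -Bf g1 g2 * g3 1 + Bf g1 g3 * g2 1 = g1 1 * Bf g2 g3 := by
      unfold Bf; ring
    rw [this, mul_assoc, hu, mul_one]
  · rfl

theorem roleA {n : ℕ} {cA cB cC cD : K n} (hA : par n cA = 1) (hB : par n cB = 1)
    (hC : par n cC = 1) (hD : par n cD = 1) {g1 g2 : Fin 3 → K n} (h : Pk cA g1 g2) :
    ∃ g3 : Fin 3 → K n, Pk cB g2 g3 ∧ Ff cA cB cC cD g2 g3 = g1 ∧
      par n (g3 1) = par n (g1 1) := by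
  obtain ⟨h1, h2, h3, h4⟩ := h
  set u := (Bf g1 g2)⁻¹ with hu
  have huu : Bf g1 g2 * u = 1 := inv_of_par h1
  have hpu : par n u = 1 := par_inv h1
  set b23 := Bf g1 g2 - cD + cC with hb23
  set b13 := cC - cB - g1 2 with hb13
  have p23 : par n b23 = 1 := by
    rw [hb23, map_add, map_sub, h1, hC, hD]; decide
  have p13 : par n b13 = 0 := by
    rw [hb13, map_sub, map_sub, hC, hB, h2]; decide
  let g3 : Fin 3 → K n :=
    ![(-b23 * g1 0 + b13 * g2 0) * u, (-b23 * g1 1 + b13 * g2 1) * u, cB - b23 - g2 2]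
  have e0 : g3 0 = (-b23 * g1 0 + b13 * g2 0) * u := rfl
  have e1 : g3 1 = (-b23 * g1 1 + b13 * g2 1) * u := rfl
  have e2 : g3 2 = cB - b23 - g2 2 := rfl
  have f23 : Bf g2 g3 = b23 := by
    have : Bf g2 g3 = b23 * (Bf g1 g2 * u) := by
      unfold Bf; rw [e0, e1]; ring
    rw [this, huu, mul_one]
  have f13 : Bf g1 g3 = b13 := by
    have : Bf g1 g3 = b13 * (Bf g1 g2 * u) := by
      unfold Bf; rw [e0, e1]; ring
    rw [this, huu, mul_one]
  refine ⟨g3, ⟨?_, h3, ?_, ?_⟩, ?_, ?_⟩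
  · rw [f23, p23]
  · rw [e2, map_sub, map_sub, hB, p23, h3]; decide
  · rw [f23, e2]; ring
  · apply Ff_eq
    · rw [f23, hb23]; ring
    · linear_combination h4
    · rw [f13]
    · rw [f23, p23]
  · rw [e1, map_mul, map_add, map_mul, map_mul, map_neg, p23, p13, hpu]
    generalize par n (g1 1) = x
    generalize par n (g2 1) = y
    revert x y; decide

theorem roleC {n : ℕ} {cA cB cC cD : K n} (hA : par n cA = 1) (hB : par n cB = 1)
    (hC : par n cC = 1) (hD : par n cD = 1) {s g3 : Fin 3 → K n} (h : Pk cC s g3) :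
    ∃ g2 : Fin 3 → K n, Pk cB g2 g3 ∧ Ff cA cB cC cD g2 g3 + g2 = s ∧
      par n (Ff cA cB cC cD g2 g3 1) = par n (g3 1) := by
  obtain ⟨h1, h2, h3, h4⟩ := h
  set u := (Bf s g3)⁻¹ with hu
  have huu : Bf s g3 * u = 1 := inv_of_par h1
  have hpu : par n u = 1 := par_inv h1
  set b12 := cA - s 2 with hb12
  set b23 := b12 - cD + cC with hb23
  set b13 := Bf s g3 - b23 with hb13
  have p12 : par n b12 = 1 := by
    rw [hb12, map_sub, hA, h2]; decide
  have p23 : par n b23 = 1 := by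
    rw [hb23, map_add, map_sub, p12, hC, hD]; decide
  have p13 : par n b13 = 0 := by
    rw [hb13, map_sub, h1, p23]; decide
  let g1 : Fin 3 → K n :=
    ![(b13 * s 0 - b12 * g3 0) * u, (b13 * s 1 - b12 * g3 1) * u,
      s 2 - (cB - b23 - g3 2)]
  let g2 : Fin 3 → K n := s - g1
  have e0 : g1 0 = (b13 * s 0 - b12 * g3 0) * u := rfl
  have e1 : g1 1 = (b13 * s 1 - b12 * g3 1) * u := rfl
  have e2 : g1 2 = s 2 - (cB - b23 - g3 2) := rfl
  have k0 : g2 0 = s 0 - g1 0 := rfl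
  have k1 : g2 1 = s 1 - g1 1 := rfl
  have k2 : g2 2 = s 2 - g1 2 := rfl
  have f13 : Bf g1 g3 = b13 := by
    have : Bf g1 g3 = b13 * (Bf s g3 * u) := by
      unfold Bf; rw [e0, e1]; ring
    rw [this, huu, mul_one]
  have f1s : Bf g1 s = b12 := by
    have : Bf g1 s = b12 * (Bf s g3 * u) := by
      unfold Bf; rw [e0, e1]; ring
    rw [this, huu, mul_one]
  have f12 : Bf g1 g2 = b12 := by
    rw [← f1s]; unfold Bf; rw [k0, k1]; ring
  have f23 : Bf g2 g3 = b23 := by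
    have : Bf g2 g3 = Bf s g3 - Bf g1 g3 := by
      unfold Bf; rw [k0, k1]; ring
    rw [this, f13, hb13]; ring
  have hF : Ff cA cB cC cD g2 g3 = g1 := by
    apply Ff_eq
    · rw [f23, f12, hb23]; ring
    · rw [f12, k2, hb12]; ring
    · rw [f13, hb13, e2, hb23]; linear_combination h4
    · rw [f23, p23]
  refine ⟨g2, ⟨?_, ?_, h3, ?_⟩, ?_, ?_⟩
  · rw [f23, p23]
  · rw [k2, e2]
    have : s 2 - (s 2 - (cB - b23 - g3 2)) = cB - b23 - g3 2 := by ring
    rw [this, map_sub, map_sub, hB, p23, h3]; decide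
  · rw [f23, k2, e2]; ring
  · rw [hF]
    funext i
    show g1 i + (s i - g1 i) = s i
    ring
  · rw [hF, e1, map_mul, map_sub, map_mul, map_mul, p12, p13, hpu]
    generalize par n (s 1) = x
    generalize par n (g3 1) = y
    revert x y; decide

theorem roleD {n : ℕ} {cA cB cC cD : K n} (hA : par n cA = 1) (hB : par n cB = 1)
    (hC : par n cC = 1) (hD : par n cD = 1) {g1 s : Fin 3 → K n} (h : Pk cD g1 s) :
    ∃ g2 g3 : Fin 3 → K n, Pk cB g2 g3 ∧ Ff cA cB cC cD g2 g3 = g1 ∧ g2 + g3 = s ∧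
      par n (g3 1) = par n (g1 1) := by
  obtain ⟨h1, h2, h3, h4⟩ := h
  set u := (Bf g1 s)⁻¹ with hu
  have huu : Bf g1 s * u = 1 := inv_of_par h1
  have hpu : par n u = 1 := par_inv h1
  set b23 := cB - s 2 with hb23
  set b12 := b23 - cC + cD with hb12
  have p23 : par n b23 = 1 := by
    rw [hb23, map_sub, hB, h3]; decide
  have p12 : par n b12 = 1 := by
    rw [hb12, map_add, map_sub, p23, hC, hD]; decide
  let g2 : Fin 3 → K n :=
    ![(b23 * g1 0 + b12 * s 0) * u, (b23 * g1 1 + b12 * s 1) * u, cA - b12 - g1 2]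
  let g3 : Fin 3 → K n := s - g2
  have e0 : g2 0 = (b23 * g1 0 + b12 * s 0) * u := rfl
  have e1 : g2 1 = (b23 * g1 1 + b12 * s 1) * u := rfl
  have e2 : g2 2 = cA - b12 - g1 2 := rfl
  have k0 : g3 0 = s 0 - g2 0 := rfl
  have k1 : g3 1 = s 1 - g2 1 := rfl
  have k2 : g3 2 = s 2 - g2 2 := rfl
  have f12 : Bf g1 g2 = b12 := by
    have : Bf g1 g2 = b12 * (Bf g1 s * u) := by
      unfold Bf; rw [e0, e1]; ring
    rw [this, huu, mul_one]
  have f2s : Bf g2 s = b23 := by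
    have : Bf g2 s = b23 * (Bf g1 s * u) := by
      unfold Bf; rw [e0, e1]; ring
    rw [this, huu, mul_one]
  have f23 : Bf g2 g3 = b23 := by
    rw [← f2s]; unfold Bf; rw [k0, k1]; ring
  have f13 : Bf g1 g3 = Bf g1 s - b12 := by
    rw [← f12]; unfold Bf; rw [k0, k1]; ring
  have hF : Ff cA cB cC cD g2 g3 = g1 := by
    apply Ff_eq
    · rw [f23, f12, hb12]; ring
    · rw [f12, e2]; ring
    · rw [f13, hb12, hb23]; linear_combination h4
    · rw [f23, p23]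
  refine ⟨g2, g3, ⟨?_, ?_, ?_, ?_⟩, hF, ?_, ?_⟩
  · rw [f23, p23]
  · rw [e2, map_sub, map_sub, hA, p12, h2]; decide
  · rw [k2, e2, map_sub, map_sub, map_sub, hA, p12, h2, h3]; decide
  · rw [f23, k2]; rw [hb23]; ring
  · funext i
    show g2 i + (s i - g2 i) = s i
    ring
  · rw [k1, e1, map_sub, map_mul, map_add, map_mul, map_mul, p12, p23, hpu]
    generalize par n (s 1) = x
    generalize par n (g1 1) = y
    revert x y; decide

end Pool.Agent.H42F
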