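import Pool.Agent.H42F.Stm

/-!
# Stub Asm of helper42's project (helper12)
-/

set_option autoImplicit false

namespace Pool.Agent.H42F.AsmProof

open Finset

lemma sep_aux (Y : ℕ) (a a' : ℕ) (y y' : ℤ) (h1 : y.natAbs ≤ Y) (h2 : y'.natAbs ≤ Y)
    (h : (2 * (Y : ℤ) + 1) * a + y = (2 * (Y : ℤ) + 1) * a' + y') : y = y' := by
  have h3 : (2 * (Y : ℤ) + 1) * ((a : ℤ) - a') = y' - y := by linarith
  have h4 : |y' - y| < 2 * (Y : ℤ) + 1 := by
    have a1 : |y| ≤ Y := by rw [Int.abs_eq_natAbs]; exact_mod_cast h1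
    have a2 : |y'| ≤ Y := by rw [Int.abs_eq_natAbs]; exact_mod_cast h2
    have := abs_sub y' y
    linarith
  have h5 : y' - y = 0 := Int.eq_zero_of_abs_lt_dvd ⟨_, h3.symm⟩ h4
  linarith

theorem t : Asm := by
  intro hLead hLab ε hε
  obtain ⟨ε', hε'⟩ : ∃ ε' : ℝ, ε' = min ε 1 / 2 := ⟨_, rfl⟩
  have hm0 : 0 < min ε 1 := lt_min hε one_pos
  have hm1 : min ε 1 ≤ 1 := min_le_right _ _
  have hm2 : min ε 1 ≤ ε := min_le_left _ _
  have hε'0 : 0 < ε' := by rw [hε']; linarith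
  have hε'1 : ε' ≤ 1 / 2 := by rw [hε']; linarith
  obtain ⟨τ, dec, Ω, J, X1, X2, X3, φA, φC, φD, ψA, ψC, ψD, hne, hJ, hcard, hpos, hA, hC, hD⟩ :=
    hLead ε' hε'0
  have hmpos : 0 < Ω.card := hne.card_pos
  obtain ⟨ι, hι⟩ : ∃ ι : τ → Fin Ω.card, ∀ ω ∈ Ω, ∀ ω' ∈ Ω, ι ω = ι ω' → ω = ω' := by
    refine ⟨fun ω => if h : ω ∈ Ω then Ω.equivFin ⟨ω, h⟩ else ⟨0, hmpos⟩, ?_⟩
    intro ω hω ω' hω' h
    simp only [dif_pos hω, dif_pos hω'] at h
    have := Ω.equivFin.injective h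
    exact congrArg Subtype.val this
  obtain ⟨L, decL, Pout, Pin, y2, y3, F, a, b, ha, hab, hP, hsep, hAA, hCC, hDD⟩ :=
    hLab Ω.card ε' hε'0
  -- the bound
  obtain ⟨Y, hY2, hY3, hYF⟩ : ∃ Y : ℕ, (∀ c, ∀ u ∈ Pout c, (y2 u).natAbs ≤ Y) ∧
      (∀ c, ∀ u ∈ Pout c, (y3 u).natAbs ≤ Y) ∧
      (∀ c, ∀ u ∈ Pout c, ∀ cA cB cC cD, (F cA cB cC cD u).natAbs ≤ Y) := by
    obtain ⟨M1, hM1⟩ := (univ.biUnion fun c => (Pout c).image (fun u => (y2 u).natAbs)).exists_le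
    obtain ⟨M2, hM2⟩ := (univ.biUnion fun c => (Pout c).image (fun u => (y3 u).natAbs)).exists_le
    obtain ⟨M3, hM3⟩ := ((univ : Finset (Fin Ω.card × Fin Ω.card × Fin Ω.card × Fin Ω.card)).biUnion
      fun q => univ.biUnion fun c => (Pout c).image (fun u => (F q.1 q.2.1 q.2.2.1 q.2.2.2 u).natAbs)).exists_le
    refine ⟨max M1 (max M2 M3), ?_, ?_, ?_⟩
    · intro c u hu
      refine (hM1 _ ?_).trans (le_max_left _ _)
      exact mem_biUnion.2 ⟨c, mem_univ _, mem_image_of_mem _ hu⟩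
    · intro c u hu
      refine (hM2 _ ?_).trans ((le_max_left _ _).trans (le_max_right _ _))
      exact mem_biUnion.2 ⟨c, mem_univ _, mem_image_of_mem _ hu⟩
    · intro c u hu cA cB cC cD
      refine (hM3 _ ?_).trans ((le_max_right _ _).trans (le_max_right _ _))
      exact mem_biUnion.2 ⟨(cA, cB, cC, cD), mem_univ _, mem_biUnion.2 ⟨c, mem_univ _,
        mem_image.2 ⟨u, hu, rfl⟩⟩⟩
  obtain ⟨D, hDd⟩ : ∃ D : ℤ, D = 2 * (Y : ℤ) + 1 := ⟨_, rfl⟩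
  have pos_aux : ∀ (n : ℕ) (y : ℤ), 0 < n → y.natAbs ≤ Y → 0 < D * n + y := by
    intro n y hn hy
    have h1 : D ≤ D * n := by
      have : (1 : ℤ) ≤ n := by exact_mod_cast hn
      have hD0 : 0 ≤ D := by omega
      nlinarith
    omega
  obtain ⟨G1, hG1⟩ : ∃ G1 : τ → L → ℤ, G1 = fun ω u =>
    D * X1 ω + F (ι (ψA ω)) (ι ω) (ι (ψC ω)) (ι (ψD ω)) u := ⟨_, rfl⟩
  obtain ⟨G2, hG2⟩ : ∃ G2 : τ → L → ℤ, G2 = fun ω u => D * X2 ω + y2 u := ⟨_, rfl⟩
  obtain ⟨G3, hG3⟩ : ∃ G3 : τ → L → ℤ, G3 = fun ω u => D * X3 ω + y3 u := ⟨_, rfl⟩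
  have p1 : ∀ ω ∈ Ω, ∀ u ∈ Pout (ι ω), 0 < G1 ω u := by
    intro ω hω u hu
    rw [hG1]
    exact pos_aux _ _ (hpos ω hω).1 (hYF _ u hu _ _ _ _)
  have p2 : ∀ ω ∈ Ω, ∀ u ∈ Pout (ι ω), 0 < G2 ω u := by
    intro ω hω u hu
    rw [hG2]
    exact pos_aux _ _ (hpos ω hω).2.1 (hY2 _ u hu)
  have p3 : ∀ ω ∈ Ω, ∀ u ∈ Pout (ι ω), 0 < G3 ω u := by
    intro ω hω u hu
    rw [hG3]
    exact pos_aux _ _ (hpos ω hω).2.2 (hY3 _ u hu)
  obtain ⟨V, hV⟩ : ∃ V : Finset (ℕ × ℕ × ℕ), V = Ω.biUnion (fun ω => (Pout (ι ω)).image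
    (fun u => ((G1 ω u).toNat, (G2 ω u).toNat, (G3 ω u).toNat))) := ⟨_, rfl⟩
  have memV : ∀ ω ∈ Ω, ∀ u ∈ Pout (ι ω), ((G1 ω u).toNat, (G2 ω u).toNat, (G3 ω u).toNat) ∈ V := by
    intro ω hω u hu
    rw [hV]
    exact mem_biUnion.2 ⟨ω, hω, mem_image.2 ⟨u, hu, rfl⟩⟩
  obtain ⟨P, hPd⟩ : ∃ P : Finset (ℕ × ℕ), P = (J.sigma (fun ω => Pin (ι ω))).image
    (fun q => ((G2 q.1 q.2).toNat, (G3 q.1 q.2).toNat)) := ⟨_, rfl⟩
  have hPinout : ∀ c, Pin c ⊆ Pout c := fun c => (hP c).2.2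
  have cardP : P.card = J.card * b := by
    rw [hPd, card_image_of_injOn, card_sigma]
    · rw [sum_congr rfl (fun ω _ => (hP (ι ω)).2.1), sum_const, smul_eq_mul]
    · rintro ⟨ω, x⟩ hq ⟨ω', x'⟩ hq' heq
      rw [mem_coe, mem_sigma] at hq hq'
      simp only at hq hq'
      simp only [Prod.mk.injEq] at heq
      obtain ⟨h1, h2⟩ := heq
      have hω := hJ hq.1
      have hω' := hJ hq'.1
      have hx := hPinout _ hq.2
      have hx' := hPinout _ hq'.2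
      have e1 : G2 ω x = G2 ω' x' := by
        have a1 := p2 ω hω x hx
        have a2 := p2 ω' hω' x' hx'
        omega
      have e2 : G3 ω x = G3 ω' x' := by
        have a1 := p3 ω hω x hx
        have a2 := p3 ω' hω' x' hx'
        omega
      rw [hG2, hDd] at e1
      rw [hG3, hDd] at e2
      have f1 := sep_aux Y _ _ _ _ (hY2 _ x hx) (hY2 _ x' hx') e1
      have f2 := sep_aux Y _ _ _ _ (hY3 _ x hx) (hY3 _ x' hx') e2
      obtain ⟨g1, g2⟩ := hsep _ _ x x' hq.2 hq'.2 f1 f2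
      have g3 := hι ω hω ω' hω' g1
      subst g3
      subst g2
      rfl
  have cardV : V.card ≤ Ω.card * a := by
    rw [hV]
    refine card_biUnion_le.trans ?_
    calc ∑ ω ∈ Ω, ((Pout (ι ω)).image (fun u => ((G1 ω u).toNat, (G2 ω u).toNat, (G3 ω u).toNat))).card
        ≤ ∑ ω ∈ Ω, a := sum_le_sum (fun ω _ => card_image_le.trans (hP (ι ω)).1.le)
      _ = Ω.card * a := by rw [sum_const, smul_eq_mul]
  refine ⟨V, ?_, ?_, ?_⟩
  · obtain ⟨ω, hω⟩ := hne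
    have h1 : (Pout (ι ω)).Nonempty := by
      rw [← card_pos, (hP (ι ω)).1]
      exact ha
    obtain ⟨u, hu⟩ := h1
    exact ⟨_, memV ω hω u hu⟩
  · intro x hx
    rw [hV, mem_biUnion] at hx
    obtain ⟨ω, hω, hx⟩ := hx
    rw [mem_image] at hx
    obtain ⟨u, hu, rfl⟩ := hx
    have a1 := p1 ω hω u hu
    have a2 := p2 ω hω u hu
    have a3 := p3 ω hω u hu
    simp only
    omega
  · have hsub : P ⊆ V.image (fun x : ℕ × ℕ × ℕ => (x.1, x.2.1)) ∩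
            V.image (fun x : ℕ × ℕ × ℕ => (x.2.1, x.2.2)) ∩
            V.image (fun x : ℕ × ℕ × ℕ => (x.1 + x.2.1, x.2.2)) ∩
            V.image (fun x : ℕ × ℕ × ℕ => (x.1, x.2.1 + x.2.2)) := by
      intro p hp
      rw [hPd, mem_image] at hp
      obtain ⟨⟨ω, x⟩, hq, rfl⟩ := hp
      rw [mem_sigma] at hq
      simp only at hq ⊢
      have hω := hJ hq.1
      have hx := hPinout _ hq.2
      rw [mem_inter, mem_inter, mem_inter]
      refine ⟨⟨⟨?_, ?_⟩, ?_⟩, ?_⟩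
      · obtain ⟨h1, h2, h3, h4⟩ := hA ω hq.1
        obtain ⟨u, hu, k1, k2⟩ := hAA (ι ω) (ι (φA ω)) (ι (ψC (φA ω))) (ι (ψD (φA ω))) x hq.2
        refine mem_image.2 ⟨_, memV (φA ω) h1 u hu, ?_⟩
        simp only [Prod.mk.injEq]
        rw [hG1, hG2, hG3]
        simp only
        rw [h2, k1, k2, h3, h4]
        exact ⟨rfl, rfl⟩
      · exact mem_image.2 ⟨_, memV ω hω x hx, rfl⟩
      · obtain ⟨h1, h2, h3, h4⟩ := hC ω hq.1
        obtain ⟨u, hu, k1, k2⟩ := hCC (ι (ψA (φC ω))) (ι (φC ω)) (ι ω) (ι (ψD (φC ω))) x hq.2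
        refine mem_image.2 ⟨_, memV (φC ω) h1 u hu, ?_⟩
        have a1 := p1 (φC ω) h1 u hu
        have a2 := p2 (φC ω) h1 u hu
        have e1 : G1 (φC ω) u + G2 (φC ω) u = G2 ω x := by
          rw [hG1, hG2]
          simp only
          rw [h2, ← k1, ← h3]
          push_cast
          ring
        have e2 : G3 (φC ω) u = G3 ω x := by
          rw [hG3]
          simp only
          rw [h4, k2]
        simp only [Prod.mk.injEq]
        rw [e2]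
        refine ⟨?_, rfl⟩
        omega
      · obtain ⟨h1, h2, h3, h4⟩ := hD ω hq.1
        obtain ⟨u, hu, k1, k2⟩ := hDD (ι (ψA (φD ω))) (ι (φD ω)) (ι (ψC (φD ω))) (ι ω) x hq.2
        refine mem_image.2 ⟨_, memV (φD ω) h1 u hu, ?_⟩
        have a1 := p2 (φD ω) h1 u hu
        have a2 := p3 (φD ω) h1 u hu
        have e1 : G1 (φD ω) u = G2 ω x := by
          rw [hG1, hG2]
          simp only
          rw [h2, k1, h3]
        have e2 : G2 (φD ω) u + G3 (φD ω) u = G3 ω x := by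
          rw [hG2, hG3]
          simp only
          rw [← k2, ← h4]
          push_cast
          ring
        simp only [Prod.mk.injEq]
        rw [e1]
        refine ⟨rfl, ?_⟩
        omega
    have hcP := card_le_card hsub
    rw [cardP] at hcP
    refine le_trans ?_ (Nat.cast_le.2 hcP)
    push_cast
    rcases le_or_gt (1 - ε) 0 with h0 | h0
    · have : (1 - ε) * (V.card : ℝ) ≤ 0 := mul_nonpos_of_nonpos_of_nonneg h0 (Nat.cast_nonneg _)
      exact this.trans (by positivity)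
    · have v1 : (V.card : ℝ) ≤ Ω.card * a := by exact_mod_cast cardV
      have v2 : (1 - ε) * (V.card : ℝ) ≤ (1 - ε) * (Ω.card * a) := mul_le_mul_of_nonneg_left v1 h0.le
      have v3 : (1 - ε) ≤ (1 - ε') * (1 - ε') := by
        have : ε' * 2 ≤ ε := by rw [hε']; linarith
        nlinarith
      have v4 : (1 - ε) * ((Ω.card : ℝ) * a) ≤ (1 - ε') * (1 - ε') * ((Ω.card : ℝ) * a) :=
        mul_le_mul_of_nonneg_right v3 (by positivity)
      have v5 : (1 - ε') * (Ω.card : ℝ) * ((1 - ε') * a) ≤ J.card * b :=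
        mul_le_mul hcard hab (mul_nonneg (by linarith) (Nat.cast_nonneg _)) (Nat.cast_nonneg _)
      calc (1 - ε) * (V.card : ℝ) ≤ (1 - ε') * (1 - ε') * ((Ω.card : ℝ) * a) := v2.trans v4
        _ = (1 - ε') * (Ω.card : ℝ) * ((1 - ε') * a) := by ring
        _ ≤ _ := v5

end Pool.Agent.H42F.AsmProof
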