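import Pool.Agent.H42F.Stm

/-!
# Encoding labels of `ℤ³` in `ℤ`
-/

set_option autoImplicit false

namespace Pool.Agent.H42F.EncProof

open Finset

theorem lin (Y : ℕ) (d0 d1 d2 : ℤ) (h0 : |d0| ≤ 2 * Y) (h1 : |d1| ≤ 2 * Y)
    (h : d0 + (2 * Y + 1) * d1 + (2 * Y + 1) ^ 2 * d2 = 0) : d0 = 0 ∧ d1 = 0 ∧ d2 = 0 := by
  have hW : (0 : ℤ) < 2 * Y + 1 := by positivity
  have e0 : d0 = 0 := by
    refine Int.eq_zero_of_abs_lt_dvd (m := 2 * Y + 1) ⟨-(d1 + (2 * Y + 1) * d2), ?_⟩ (by linarith)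
    linear_combination h
  subst e0
  have h3 : d1 + (2 * Y + 1) * d2 = 0 := by
    have h4 : (2 * (Y : ℤ) + 1) * (d1 + (2 * Y + 1) * d2) = 0 := by linear_combination h
    rcases mul_eq_zero.1 h4 with h5 | h5
    · omega
    · exact h5
  have e1 : d1 = 0 := by
    refine Int.eq_zero_of_abs_lt_dvd (m := 2 * Y + 1) ⟨-d2, ?_⟩ (by linarith)
    linear_combination h3
  subst e1
  refine ⟨rfl, rfl, ?_⟩
  rcases mul_eq_zero.1 (by linarith : (2 * (Y : ℤ) + 1) * d2 = 0) with h5 | h5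
  · omega
  · exact h5

/-- the encoding -/
def enc (Y : ℕ) (y : Fin 3 → ℤ) : ℤ := y 0 + (2 * Y + 1) * y 1 + (2 * Y + 1) ^ 2 * y 2

theorem enc_add (Y : ℕ) (y z : Fin 3 → ℤ) : enc Y (y + z) = enc Y y + enc Y z := by
  unfold enc
  simp only [Pi.add_apply]
  ring

theorem enc_inj (Y : ℕ) (y z : Fin 3 → ℤ) (hy : ∀ i, |y i| ≤ Y) (hz : ∀ i, |z i| ≤ Y)
    (h : enc Y y = enc Y z) : y = z := by
  have hd : ∀ i, |y i - z i| ≤ 2 * Y := by
    intro i
    have h1 := abs_le.1 (hy i)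
    have h2 := abs_le.1 (hz i)
    rw [abs_le]
    constructor <;> linarith
  unfold enc at h
  obtain ⟨h0, h1, h2⟩ := lin Y (y 0 - z 0) (y 1 - z 1) (y 2 - z 2) (hd 0) (hd 1)
    (by linear_combination h)
  funext i
  fin_cases i
  · exact sub_eq_zero.1 h0
  · exact sub_eq_zero.1 h1
  · exact sub_eq_zero.1 h2

theorem t : Enc := by
  intro hL m ε hε
  obtain ⟨L, decL, Pout, Pin, y2, y3, F, a, b, ha, hab, hcard, hinj, hA, hC, hD⟩ := hL m ε hε
  set Y : ℕ := ∑ c : Fin m, ∑ x ∈ Pin c, ∑ i : Fin 3, ((y2 x i).natAbs + (y3 x i).natAbs) with hY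
  have hb : ∀ c, ∀ x ∈ Pin c, ∀ i, |y2 x i| ≤ Y ∧ |y3 x i| ≤ Y := by
    intro c x hx i
    have h1 : (y2 x i).natAbs + (y3 x i).natAbs ≤ Y := by
      rw [hY]
      calc (y2 x i).natAbs + (y3 x i).natAbs ≤ ∑ i : Fin 3, ((y2 x i).natAbs + (y3 x i).natAbs) :=
            single_le_sum (f := fun i : Fin 3 => (y2 x i).natAbs + (y3 x i).natAbs)
              (fun _ _ => Nat.zero_le _) (mem_univ i)
        _ ≤ ∑ x ∈ Pin c, ∑ i : Fin 3, ((y2 x i).natAbs + (y3 x i).natAbs) :=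
            single_le_sum (f := fun x => ∑ i : Fin 3, ((y2 x i).natAbs + (y3 x i).natAbs))
              (fun _ _ => Nat.zero_le _) hx
        _ ≤ _ := single_le_sum
              (f := fun c : Fin m => ∑ x ∈ Pin c, ∑ i : Fin 3, ((y2 x i).natAbs + (y3 x i).natAbs))
              (fun _ _ => Nat.zero_le _) (mem_univ c)
    rw [Int.abs_eq_natAbs, Int.abs_eq_natAbs]
    constructor
    · exact_mod_cast (Nat.le_add_right _ _).trans h1
    · exact_mod_cast (Nat.le_add_left _ _).trans h1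
  refine ⟨L, decL, Pout, Pin, fun u => enc Y (y2 u), fun u => enc Y (y3 u),
    fun cA cB cC cD u => enc Y (F cA cB cC cD u), a, b, ha, hab, hcard, ?_, ?_, ?_, ?_⟩
  · intro c c' x x' hx hx' h2 h3
    exact hinj c c' x x' hx hx'
      (enc_inj Y _ _ (fun i => (hb c x hx i).1) (fun i => (hb c' x' hx' i).1) h2)
      (enc_inj Y _ _ (fun i => (hb c x hx i).2) (fun i => (hb c' x' hx' i).2) h3)
  · intro cA cB cC cD x hx
    obtain ⟨u, hu, h1, h2⟩ := hA cA cB cC cD x hx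
    exact ⟨u, hu, congrArg (enc Y) h1, congrArg (enc Y) h2⟩
  · intro cA cB cC cD x hx
    obtain ⟨u, hu, h1, h2⟩ := hC cA cB cC cD x hx
    exact ⟨u, hu, (enc_add Y _ _).symm.trans (congrArg (enc Y) h1), congrArg (enc Y) h2⟩
  · intro cA cB cC cD x hx
    obtain ⟨u, hu, h1, h2⟩ := hD cA cB cC cD x hx
    exact ⟨u, hu, congrArg (enc Y) h1, (enc_add Y _ _).symm.trans (congrArg (enc Y) h2)⟩

end Pool.Agent.H42F.EncProof
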