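import Mathlib

/-!
# Almost invariant finite sets of triples of positive integers (`MP_5c00b6_al`, frozen `S01585`)

Statements of the independent parts.

The proof: (1) `Lead`: a finite *multiset* `Ω` of triples `(X1, X2, X3)` of positive integers whose four
multisets of pairs `(X1,X2)`, `(X2,X3)`, `(X1+X2,X3)`, `(X1,X2+X3)` nearly coincide;
(2) `LabelG ℤ`: labels that separate the elements of the multiset;
(3) `Asm`: the two together give the set `V`.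
-/

set_option autoImplicit false

namespace Pool.Agent.H42F

/-- Leading level.

PROOF. Fix integers `N ≥ 2`, `T ≥ 1`, `M ≥ 1`; put `TT = N ^ (T + 1)` and `I = M + 2 * TT + 5`.
`τ = ℕ × ℕ × ℕ × ℕ × ℕ × ℕ × ℕ`, an element is `ω = (s, g, h, m, α, β, ζ)`, and
`Ω = range T ×ˢ range TT ×ˢ range TT ×ˢ range M ×ˢ range (N^I) ×ˢ range (N^I) ×ˢ range (N^I)`.
Put `σ = 1 + g % N^s`, `ρ = 1 + h % N^(s+1)`, and
`X3 = 1 + ζ % N^m`, `X2 = 1 + β % N^(m+σ)`, `X1 = 1 + α % N^(m+σ+ρ)`.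
Put `σ' = 1 + h % N^(s-1)`, `x3 = 1 + α % N^(m-σ')`, `x2 = 1 + α % N^(m+σ')` (natural subtraction).
`J` is the set of `ω ∈ Ω` with `1 ≤ s`, `σ' ≤ m`, `σ' ≤ g % N^s`, `x3 ≤ ζ % N^m`, `x2 ≤ β % N^(m+σ)`.
The maps are
`φA ω = (s-1, h, g, m-σ', β, ζ, α)`,
`φD ω = (s-1, h, g, m-σ', β, ζ - x3, α)`,
`φC ω = (s-1, h, g - σ', m, β - x2, α, ζ)`.
Note that for `ω' = φ ω` with `ω ∈ J` one has `s(ω')+1 = s` and `σ(ω') = 1 + h % N^(s-1) = σ'`.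
So the left inverses are, with `σ(ω') = 1 + g' % N^s'`, `X2(ω')`, `X3(ω')` computed from
`ω' = (s', g', h', m', α', β', ζ')`:
`ψA ω' = (s'+1, h', g', m'+σ(ω'), ζ', α', β')`,
`ψD ω' = (s'+1, h', g', m'+σ(ω'), ζ', α', β' + X3(ω'))`,
`ψC ω' = (s'+1, h' + σ(ω'), g', m', β', α' + X2(ω'), ζ')`.
The relations for the `X`'s are direct (for instance for `φA`: `ρ(ω') = 1 + g % N^s = σ`,
`m'+σ(ω') = m`, so `X2(ω') = 1 + ζ % N^m = X3 ω` and `X1(ω') = 1 + β % N^(m+σ) = X2 ω`; for `φD`,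
`(ζ - x3) % N^m = ζ % N^m - x3` because `x3 ≤ ζ % N^m`; for `φC`, `ρ(ω') = 1 + (g-σ') % N^s = σ - σ'`).
They were checked numerically.
COUNT. The complement of `J` in `Ω` is covered by `s = 0` (`|Ω|/T` elements); `m < σ'`, where
`σ' ≤ N^T` (at most `|Ω| N^T / M`); `g % N^s < σ'` with `1 ≤ s`, where `σ' ≤ N^(s-1)` (at most `|Ω|/N`);
`σ' ≤ m` and `ζ % N^m < x3 ≤ N^(m-1)` (at most `|Ω|/N`); `σ' ≤ g % N^s` (so `σ' + 1 ≤ σ`) and
`β % N^(m+σ) < x2 ≤ N^(m+σ') ≤ N^(m+σ-1)` (at most `|Ω|/N`). Here one uses: the number of `x < N^I` with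
`x % N^k < t` is at most `N^(I-k) * t` for `k ≤ I` (`x` is determined by `x / N^k < N^(I-k)` and `x % N^k`),
fibrewise over the other coordinates. Choose `N ≥ 4/ε + 2`, `T ≥ 4/ε + 1`, `M ≥ (4/ε + 1) N^T`
(constants with more room if you like: the total is at most `|Ω| (1/T + N^T/M + 3/N)`). -/
def Lead : Prop := ∀ ε : ℝ, 0 < ε →
  ∃ (τ : Type) (_ : DecidableEq τ) (Ω J : Finset τ) (X1 X2 X3 : τ → ℕ)
    (φA φC φD ψA ψC ψD : τ → τ),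
    Ω.Nonempty ∧ J ⊆ Ω ∧ (1 - ε) * (Ω.card : ℝ) ≤ (J.card : ℝ) ∧
    (∀ ω ∈ Ω, 0 < X1 ω ∧ 0 < X2 ω ∧ 0 < X3 ω) ∧
    (∀ ω ∈ J, φA ω ∈ Ω ∧ ψA (φA ω) = ω ∧ X1 (φA ω) = X2 ω ∧ X2 (φA ω) = X3 ω) ∧
    (∀ ω ∈ J, φC ω ∈ Ω ∧ ψC (φC ω) = ω ∧
      X1 (φC ω) + X2 (φC ω) = X2 ω ∧ X3 (φC ω) = X3 ω) ∧
    (∀ ω ∈ J, φD ω ∈ Ω ∧ ψD (φD ω) = ω ∧
      X1 (φD ω) = X2 ω ∧ X2 (φD ω) + X3 (φD ω) = X3 ω)

/-- Label level, with labels in the abelian group `A`. -/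
def LabelG (A : Type) [AddCommGroup A] : Prop := ∀ (m : ℕ) (ε : ℝ), 0 < ε →
  ∃ (L : Type) (_ : DecidableEq L) (Pout Pin : Fin m → Finset L) (y2 y3 : L → A)
    (F : Fin m → Fin m → Fin m → Fin m → L → A) (a b : ℕ),
    0 < a ∧ (1 - ε) * (a : ℝ) ≤ (b : ℝ) ∧
    (∀ c, (Pout c).card = a ∧ (Pin c).card = b ∧ Pin c ⊆ Pout c) ∧
    (∀ c c' x x', x ∈ Pin c → x' ∈ Pin c' → y2 x = y2 x' → y3 x = y3 x' → c = c' ∧ x = x') ∧
    (∀ cA cB cC cD, ∀ x ∈ Pin cA, ∃ u ∈ Pout cB, F cA cB cC cD u = y2 x ∧ y2 u = y3 x) ∧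
    (∀ cA cB cC cD, ∀ x ∈ Pin cC, ∃ u ∈ Pout cB,
      F cA cB cC cD u + y2 u = y2 x ∧ y3 u = y3 x) ∧
    (∀ cA cB cC cD, ∀ x ∈ Pin cD, ∃ u ∈ Pout cB,
      F cA cB cC cD u = y2 x ∧ y2 u + y3 u = y3 x)

/-- Encoding labels of `ℤ³` in `ℤ`.

PROOF. Take the data for `Fin 3 → ℤ`. The finitely many values `y2 x, y3 x`, `x ∈ Pin c`, have
coordinates bounded by some `Y` in absolute value; let `W = 2 Y + 1` and
`e y = y 0 + W * y 1 + W^2 * y 2`, additive and injective on vectors with coordinates bounded by `Y`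
(if `e y = e y'`, the difference `d` has `|d i| ≤ 2Y < W` and `d 0` is divisible by `W`, so `d 0 = 0`,
then `d 1 + W d 2 = 0`, so `d 1 = 0`, `d 2 = 0`). Compose `y2`, `y3`, `F` with `e`. -/
def Enc : Prop := LabelG (Fin 3 → ℤ) → LabelG ℤ

/-- Assembly.

PROOF. Given `ε > 0` (replace it by `min ε 1`), take `Lead` with `ε/2` and the data for `ε/2`; let `m = Ω.card`
and `ι : τ → Fin m` injective on `Ω` (`m > 0`; e.g. from `Ω.equivFin`, arbitrary outside `Ω`). Take `LabelG ℤ`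
with this `m` and `ε/2`. All the integers `y2 u`, `y3 u`, `F a b c d u` (`u ∈ Pout c'`, all colours) are bounded
by some `Y ≥ 1` in absolute value; let `D = 2 Y + 1`. For `ω ∈ Ω`, `u ∈ Pout (ι ω)` put
`t (ω, u) = (D * X1 ω + F (ι (ψA ω)) (ι ω) (ι (ψC ω)) (ι (ψD ω)) u, D * X2 ω + y2 u, D * X3 ω + y3 u)`,
a triple of positive integers, and let `V` be the (finite) set of all of them (apply `Int.toNat`). Then
`V.card ≤ Ω.card * a`. Let `P` be the set of all pairs `(D * X2 ω + y2 x, D * X3 ω + y3 x)` with `ω ∈ J`,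
`x ∈ Pin (ι ω)`. The pair determines `y2 x`, `y3 x` (as `|y| ≤ Y`, `D = 2Y+1`), hence `ι ω` and `x`, hence `ω`; so
`P.card = J.card * b ≥ (1 - ε/2)^2 |Ω| a ≥ (1 - ε) |V|`. And `P` is contained in all four images:
second: `t (ω, x)`, as `Pin ⊆ Pout`; first: `ω' = φA ω ∈ Ω`, `ψA ω' = ω`, so the role `A` clause with
`cA = ι ω = ι (ψA ω')`, `cB = ι ω'`, ... gives `u ∈ Pout (ι ω')` with
`t (ω', u) = (D * X2 ω + y2 x, D * X3 ω + y3 x, _)`; third and fourth in the same way with `φC`, `φD`. -/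
def Asm : Prop := Lead → LabelG ℤ → ∀ ε : ℝ, 0 < ε →
      ∃ V : Finset (ℕ × ℕ × ℕ),
        V.Nonempty ∧
        (∀ x ∈ V, 0 < x.1 ∧ 0 < x.2.1 ∧ 0 < x.2.2) ∧
        (1 - ε) * (V.card : ℝ) ≤
          ((V.image (fun x : ℕ × ℕ × ℕ => (x.1, x.2.1)) ∩
            V.image (fun x : ℕ × ℕ × ℕ => (x.2.1, x.2.2)) ∩
            V.image (fun x : ℕ × ℕ × ℕ => (x.1 + x.2.1, x.2.2)) ∩
            V.image (fun x : ℕ × ℕ × ℕ => (x.1, x.2.1 + x.2.2))).card : ℝ)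

end Pool.Agent.H42F
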