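import Mathlib
import Pool.Agent.H42F.Stm
import Pool.Agent.H42F.Alg

/-!
# Integer labels in `ℤ³`
-/

set_option autoImplicit false

namespace Pool.Agent.H42F

open Finset

/-- The integer vector with residues `g` and coarse part `w`. -/
def lab {n : ℕ} (g : Fin 3 → K n) (w : Fin 3 → ℤ) : Fin 3 → ℤ :=
  fun i => ((g i).val : ℤ) + 2 ^ (n + 1) * w i

/-- The carry of the addition. -/
def carry {n : ℕ} (g h : Fin 3 → K n) : Fin 3 → ℤ :=
  fun i => ((((g i).val + (h i).val) / 2 ^ (n + 1) : ℕ) : ℤ)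

theorem carry_nonneg {n : ℕ} (g h : Fin 3 → K n) (i : Fin 3) : 0 ≤ carry g h i := by
  unfold carry; positivity

theorem carry_le {n : ℕ} (g h : Fin 3 → K n) (i : Fin 3) : carry g h i ≤ 1 := by
  unfold carry
  have h1 := ZMod.val_lt (g i)
  have h2 := ZMod.val_lt (h i)
  have h3 : ((g i).val + (h i).val) / 2 ^ (n + 1) < 2 := by
    apply Nat.div_lt_of_lt_mul
    omega
  have : ((((g i).val + (h i).val) / 2 ^ (n + 1) : ℕ) : ℤ) < 2 := by exact_mod_cast h3
  omega

theorem lab_add {n : ℕ} (g h : Fin 3 → K n) (w v : Fin 3 → ℤ) :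
    lab g w + lab h v = lab (g + h) (w + v + carry g h) := by
  funext i
  show ((g i).val : ℤ) + 2 ^ (n + 1) * w i + (((h i).val : ℤ) + 2 ^ (n + 1) * v i) =
    (((g i + h i)).val : ℤ) + 2 ^ (n + 1) * (w i + v i + carry g h i)
  have h1 : (g i + h i).val + 2 ^ (n + 1) * (((g i).val + (h i).val) / 2 ^ (n + 1)) =
      (g i).val + (h i).val := by
    rw [ZMod.val_add]
    exact Nat.mod_add_div _ _
  have h2 : ((g i + h i).val : ℤ) + 2 ^ (n + 1) * carry g h i =
      ((g i).val : ℤ) + ((h i).val : ℤ) := by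
    unfold carry
    exact_mod_cast h1
  linear_combination -h2

theorem lab_inj {n : ℕ} {g h : Fin 3 → K n} {w v : Fin 3 → ℤ} (e : lab g w = lab h v) :
    g = h ∧ w = v := by
  have key : ∀ i, g i = h i ∧ w i = v i := by
    intro i
    have e' : ((g i).val : ℤ) + 2 ^ (n + 1) * w i = ((h i).val : ℤ) + 2 ^ (n + 1) * v i :=
      congrFun e i
    have h1 := ZMod.val_lt (g i)
    have h2 := ZMod.val_lt (h i)
    have h1' : ((g i).val : ℤ) < 2 ^ (n + 1) := by exact_mod_cast h1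
    have h2' : ((h i).val : ℤ) < 2 ^ (n + 1) := by exact_mod_cast h2
    have hw : w i = v i := by
      have hpos : (0 : ℤ) < 2 ^ (n + 1) := by positivity
      have a1 : (2 : ℤ) ^ (n + 1) * (w i - v i) < 2 ^ (n + 1) * 1 := by
        have : (0 : ℤ) ≤ ((g i).val : ℤ) := by positivity
        linarith
      have a2 : (2 : ℤ) ^ (n + 1) * (-1) < 2 ^ (n + 1) * (w i - v i) := by
        have : (0 : ℤ) ≤ ((h i).val : ℤ) := by positivity
        linarith
      have b1 := lt_of_mul_lt_mul_left a1 hpos.le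
      have b2 := lt_of_mul_lt_mul_left a2 hpos.le
      omega
    refine ⟨?_, hw⟩
    rw [hw] at e'
    have : ((g i).val : ℤ) = ((h i).val : ℤ) := by linarith
    exact ZMod.val_injective _ (by exact_mod_cast this)
  exact ⟨funext fun i => (key i).1, funext fun i => (key i).2⟩

open Classical in
/-- Coarse part of the first label. -/
noncomputable def w2 {n : ℕ} (g h : Fin 3 → K n) (t s : Fin 3 → ℤ) : Fin 3 → ℤ :=
  if par n (g 1) = 0 then s else if par n (h 1) = 0 then t else s - t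

open Classical in
/-- Coarse part of the second label. -/
noncomputable def w3 {n : ℕ} (_g h : Fin 3 → K n) (t s : Fin 3 → ℤ) : Fin 3 → ℤ :=
  if par n (h 1) = 0 then s else t

open Classical in
/-- Coarse part of the new label. -/
noncomputable def w1 {n : ℕ} (g h : Fin 3 → K n) (t s : Fin 3 → ℤ) : Fin 3 → ℤ :=
  if par n (g 1) = 0 then - w3 g h t s else w3 g h t s

/-- Label pairs with parameters. -/
abbrev LL (n : ℕ) : Type :=
  ((Fin 3 → K n) × (Fin 3 → K n)) × ((Fin 3 → ℤ) × (Fin 3 → ℤ))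

/-- The colours. -/
def col (n m : ℕ) (c : Fin m) : K n := ((2 * (c : ℕ) + 1 : ℕ) : K n)

theorem par_col (n m : ℕ) (c : Fin m) : par n (col n m c) = 1 := by
  unfold col
  rw [map_natCast]
  push_cast
  have : (2 : ZMod 2) = 0 := by decide
  rw [this]
  simp

theorem col_inj {n m : ℕ} (h : m ≤ 2 ^ n) {c c' : Fin m} (e : col n m c = col n m c') :
    c = c' := by
  unfold col at e
  have hc := c.2
  have hc' := c'.2
  have h1 : 2 * (c : ℕ) + 1 < 2 ^ (n + 1) := by rw [pow_succ]; omega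
  have h2 : 2 * (c' : ℕ) + 1 < 2 ^ (n + 1) := by rw [pow_succ]; omega
  have e2 := congrArg ZMod.val e
  rw [ZMod.val_natCast_of_lt h1, ZMod.val_natCast_of_lt h2] at e2
  exact Fin.ext (by omega)

/-- Boxes. -/
noncomputable def Box (R : ℕ) : Finset (Fin 3 → ℤ) := Fintype.piFinset fun _ => Finset.Ico (-(R : ℤ)) R

theorem mem_Box {R : ℕ} {t : Fin 3 → ℤ} : t ∈ Box R ↔ ∀ i, -(R : ℤ) ≤ t i ∧ t i < R := by
  unfold Box
  simp [Fintype.mem_piFinset]

theorem card_Box (R : ℕ) : (Box R).card = (2 * R) ^ 3 := by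
  unfold Box
  rw [Fintype.card_piFinset]
  simp
  congr 1
  omega

open Classical in
/-- The residue pairs of colour `c`. -/
noncomputable def Res (n : ℕ) (c : K n) : Finset ((Fin 3 → K n) × (Fin 3 → K n)) :=
  Finset.univ.filter fun x => Pk c x.1 x.2

theorem mem_Res {n : ℕ} {c : K n} {x : (Fin 3 → K n) × (Fin 3 → K n)} :
    x ∈ Res n c ↔ Pk c x.1 x.2 := by
  unfold Res; simp

/-- Shift of the third coordinate. -/
def shf {n : ℕ} (d : K n) (x : (Fin 3 → K n) × (Fin 3 → K n)) :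
    (Fin 3 → K n) × (Fin 3 → K n) := (x.1 + ![0, 0, d], x.2)

theorem shf_mem {n : ℕ} {c d : K n} (hd : par n d = 0) {x : (Fin 3 → K n) × (Fin 3 → K n)}
    (hx : x ∈ Res n c) : shf d x ∈ Res n (c + d) := by
  rw [mem_Res] at hx ⊢
  obtain ⟨h1, h2, h3, h4⟩ := hx
  have e0 : (shf d x).1 0 = x.1 0 := by
    show x.1 0 + (0 : K n) = x.1 0
    rw [add_zero]
  have e1 : (shf d x).1 1 = x.1 1 := by
    show x.1 1 + (0 : K n) = x.1 1
    rw [add_zero]
  have e2 : (shf d x).1 2 = x.1 2 + d := rfl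
  have e3 : (shf d x).2 = x.2 := rfl
  have eB : Bf (shf d x).1 (shf d x).2 = Bf x.1 x.2 := by
    unfold Bf; rw [e0, e1, e3]
  refine ⟨?_, ?_, ?_, ?_⟩
  · rw [eB, h1]
  · rw [e2, map_add, h2, hd, add_zero]
  · rw [e3, h3]
  · rw [eB, e2, e3]
    linear_combination h4

theorem shf_inj {n : ℕ} (d : K n) : Function.Injective (shf d) := by
  intro x y h
  unfold shf at h
  rw [Prod.mk.injEq] at h
  exact Prod.ext (add_right_cancel h.1) h.2

theorem card_Res_le {n : ℕ} {c c' : K n} (hc : par n c = 1) (hc' : par n c' = 1) :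
    (Res n c).card ≤ (Res n c').card := by
  apply Finset.card_le_card_of_injOn (shf (c' - c))
  · intro x hx
    have := shf_mem (d := c' - c) (by rw [map_sub, hc, hc', sub_self]) hx
    rw [add_sub_cancel] at this
    exact this
  · exact (shf_inj _).injOn

theorem card_Res {n : ℕ} {c c' : K n} (hc : par n c = 1) (hc' : par n c' = 1) :
    (Res n c).card = (Res n c').card :=
  le_antisymm (card_Res_le hc hc') (card_Res_le hc' hc)

theorem card_Res_pos (n : ℕ) : 0 < (Res n 1).card := by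
  rw [Finset.card_pos]
  refine ⟨(![1, 0, 0], ![0, 1, 0]), ?_⟩
  rw [mem_Res]
  refine ⟨?_, ?_, ?_, ?_⟩ <;> simp [Bf]

/-- The label sets. -/
noncomputable def PP (n m R r : ℕ) (c : Fin m) : Finset (LL n) :=
  Res n (col n m c) ×ˢ (Box R ×ˢ Box r)

theorem card_PP (n m R r : ℕ) (c : Fin m) :
    (PP n m R r c).card = (Res n 1).card * ((2 * R) ^ 3 * (2 * r) ^ 3) := by
  unfold PP
  rw [Finset.card_product, Finset.card_product, card_Box, card_Box,
    card_Res (par_col n m c) (map_one (par n))]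

theorem mem_PP {n m R r : ℕ} {c : Fin m} {x : LL n} :
    x ∈ PP n m R r c ↔ Pk (col n m c) x.1.1 x.1.2 ∧ x.2.1 ∈ Box R ∧ x.2.2 ∈ Box r := by
  unfold PP
  rw [Finset.mem_product, Finset.mem_product, mem_Res]

/-- First label of the pair. -/
noncomputable def Y2 {n : ℕ} (x : LL n) : Fin 3 → ℤ := lab x.1.1 (w2 x.1.1 x.1.2 x.2.1 x.2.2)
/-- Second label of the pair. -/
noncomputable def Y3 {n : ℕ} (x : LL n) : Fin 3 → ℤ := lab x.1.2 (w3 x.1.1 x.1.2 x.2.1 x.2.2)
/-- New label. -/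
noncomputable def FF (n m : ℕ) (a b c d : Fin m) (x : LL n) : Fin 3 → ℤ :=
  lab (Ff (col n m a) (col n m b) (col n m c) (col n m d) x.1.1 x.1.2)
    (w1 x.1.1 x.1.2 x.2.1 x.2.2)

theorem z2 (x : ZMod 2) : x = 0 ∨ x = 1 := by revert x; decide

/-- The pairs of parities. -/
theorem types {n : ℕ} {c : K n} {g h : Fin 3 → K n} (hp : Pk c g h) :
    (par n (g 1) = 1 ∧ par n (h 1) = 0) ∨ (par n (g 1) = 0 ∧ par n (h 1) = 1) ∨
      (par n (g 1) = 1 ∧ par n (h 1) = 1) := by
  have h1 := hp.1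
  unfold Bf at h1
  rw [map_sub, map_mul, map_mul] at h1
  rcases z2 (par n (g 1)) with a | a <;> rcases z2 (par n (h 1)) with b | b
  · rw [a, b] at h1; simp at h1
  · exact Or.inr (Or.inl ⟨a, b⟩)
  · exact Or.inl ⟨a, b⟩
  · exact Or.inr (Or.inr ⟨a, b⟩)

theorem Y_inj {n m R r R' r' : ℕ} (hm : m ≤ 2 ^ n) {c c' : Fin m} {x x' : LL n}
    (hx : x ∈ PP n m R r c) (hx' : x' ∈ PP n m R' r' c') (e2 : Y2 x = Y2 x')
    (e3 : Y3 x = Y3 x') : c = c' ∧ x = x' := by
  obtain ⟨⟨g, h⟩, ⟨t, s⟩⟩ := x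
  obtain ⟨⟨g', h'⟩, ⟨t', s'⟩⟩ := x'
  rw [mem_PP] at hx hx'
  obtain ⟨p, -, -⟩ := hx
  obtain ⟨p', -, -⟩ := hx'
  unfold Y2 at e2
  unfold Y3 at e3
  dsimp only at e2 e3 p p'
  obtain ⟨rfl, f2⟩ := lab_inj e2
  obtain ⟨rfl, f3⟩ := lab_inj e3
  refine ⟨col_inj hm ?_, ?_⟩
  · rw [← p.2.2.2, ← p'.2.2.2]
  · have hts : t = t' ∧ s = s' := by
      rcases types p with ⟨a, b⟩ | ⟨a, b⟩ | ⟨a, b⟩
      · simp only [w2, w3, a, b, one_ne_zero, if_false, if_true] at f2 f3
        exact ⟨f2, f3⟩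
      · simp only [w2, w3, a, b, one_ne_zero, if_false, if_true] at f2 f3
        exact ⟨f3, f2⟩
      · simp only [w2, w3, a, b, one_ne_zero, if_false] at f2 f3
        refine ⟨f3, ?_⟩
        rw [f3] at f2
        exact sub_left_injective f2
    rw [hts.1, hts.2]

theorem roleA' {n m R r R' r' : ℕ} (hR : R = R' + r' + 2) (hr : r = r' + 1)
    (a b c d : Fin m) (x : LL n) (hx : x ∈ PP n m R' r' a) :
    ∃ u ∈ PP n m R r b, FF n m a b c d u = Y2 x ∧ Y2 u = Y3 x := by
  obtain ⟨⟨g1, g2⟩, ⟨tA, sA⟩⟩ := x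
  rw [mem_PP] at hx
  obtain ⟨p, ht, hs⟩ := hx
  dsimp only at p ht hs
  rw [mem_Box] at ht hs
  obtain ⟨g3, q, hF, h31⟩ := roleA (par_col n m a) (par_col n m b) (par_col n m c)
    (par_col n m d) p
  rcases types q with ⟨k2, k3⟩ | ⟨k2, k3⟩ | ⟨k2, k3⟩
  · -- LS
    have k1 : par n (g1 1) = 0 := by rw [← h31, k3]
    refine ⟨((g2, g3), (tA, sA)), ?_, ?_, ?_⟩
    · rw [mem_PP]
      refine ⟨q, ?_, ?_⟩
      · rw [mem_Box]; intro i; have := ht i; constructor <;> (dsimp only; omega)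
      · rw [mem_Box]; intro i; have := hs i; constructor <;> (dsimp only; omega)
    · simp only [FF, Y2, w1, w2, w3, hF, k1, k2, k3, one_ne_zero, if_false, if_true]
    · simp only [Y2, Y3, w2, w3, k2, k3, one_ne_zero, if_false, if_true]
  · -- SL
    have k1 : par n (g1 1) = 1 := by rw [← h31, k3]
    refine ⟨((g2, g3), (-tA, sA)), ?_, ?_, ?_⟩
    · rw [mem_PP]
      refine ⟨q, ?_, ?_⟩
      · rw [mem_Box]; intro i; have := ht i
        constructor <;> (simp only [Pi.neg_apply]; omega)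
      · rw [mem_Box]; intro i; have := hs i; constructor <;> (dsimp only; omega)
    · simp only [FF, Y2, w1, w2, w3, hF, k1, k2, k3, one_ne_zero, if_false, if_true, neg_neg]
    · simp only [Y2, Y3, w2, w3, k2, k3, if_true]
  · -- D
    have k1 : par n (g1 1) = 1 := by rw [← h31, k3]
    refine ⟨((g2, g3), (sA - tA, sA)), ?_, ?_, ?_⟩
    · rw [mem_PP]
      refine ⟨q, ?_, ?_⟩
      · rw [mem_Box]; intro i; have := ht i; have := hs i
        constructor <;> (simp only [Pi.sub_apply]; omega)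
      · rw [mem_Box]; intro i; have := hs i; constructor <;> (dsimp only; omega)
    · simp only [FF, Y2, w1, w2, w3, hF, k1, k2, k3, one_ne_zero, if_false]
    · simp only [Y2, Y3, w2, w3, k2, k3, one_ne_zero, if_false, sub_sub_cancel]

theorem roleC' {n m R r R' r' : ℕ} (hR : R = R' + r' + 2) (hr : r = r' + 1)
    (a b c d : Fin m) (x : LL n) (hx : x ∈ PP n m R' r' c) :
    ∃ u ∈ PP n m R r b, FF n m a b c d u + Y2 u = Y2 x ∧ Y3 u = Y3 x := by
  obtain ⟨⟨sg, g3⟩, ⟨tC, sC⟩⟩ := x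
  rw [mem_PP] at hx
  obtain ⟨p, ht, hs⟩ := hx
  dsimp only at p ht hs
  rw [mem_Box] at ht hs
  obtain ⟨g2, q, hF, h13⟩ := roleC (par_col n m a) (par_col n m b) (par_col n m c)
    (par_col n m d) p
  set g1 := Ff (col n m a) (col n m b) (col n m c) (col n m d) g2 g3 with hg1
  set κ := carry g1 g2 with hκ
  have hκ0 : ∀ i, 0 ≤ κ i := carry_nonneg g1 g2
  have hκ1 : ∀ i, κ i ≤ 1 := carry_le g1 g2
  have hsg : par n (sg 1) = par n (g3 1) + par n (g2 1) := by
    rw [← hF, Pi.add_apply, map_add, h13]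
  rcases types q with ⟨k2, k3⟩ | ⟨k2, k3⟩ | ⟨k2, k3⟩
  · -- LS
    have ks : par n (sg 1) = 1 := by rw [hsg, k2, k3]; decide
    refine ⟨((g2, g3), (tC - sC - κ, sC)), ?_, ?_, ?_⟩
    · rw [mem_PP]
      refine ⟨q, ?_, ?_⟩
      · rw [mem_Box]; intro i; have := ht i; have := hs i; have := hκ0 i; have := hκ1 i
        constructor <;> (simp only [Pi.sub_apply]; omega)
      · rw [mem_Box]; intro i; have := hs i; constructor <;> (dsimp only; omega)
    · simp only [FF, Y2, w1, w2, w3, ← hg1, ks, k2, k3, one_ne_zero, if_false, if_true]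
      rw [lab_add, hF, ← hκ]
      congr 1
      abel
    · simp only [Y3, w3, k3, if_true]
  · -- SL
    have ks : par n (sg 1) = 1 := by rw [hsg, k2, k3]; decide
    refine ⟨((g2, g3), (tC, sC - κ)), ?_, ?_, ?_⟩
    · rw [mem_PP]
      refine ⟨q, ?_, ?_⟩
      · rw [mem_Box]; intro i; have := ht i; constructor <;> (dsimp only; omega)
      · rw [mem_Box]; intro i; have := hs i; have := hκ0 i; have := hκ1 i
        constructor <;> (simp only [Pi.sub_apply]; omega)
    · simp only [FF, Y2, w1, w2, w3, ← hg1, ks, k2, k3, one_ne_zero, if_false, if_true]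
      rw [lab_add, hF, ← hκ]
      congr 1
      abel
    · simp only [Y3, w3, k3, one_ne_zero, if_false]
  · -- D
    have ks : par n (sg 1) = 0 := by rw [hsg, k2, k3]; decide
    refine ⟨((g2, g3), (tC, sC - κ)), ?_, ?_, ?_⟩
    · rw [mem_PP]
      refine ⟨q, ?_, ?_⟩
      · rw [mem_Box]; intro i; have := ht i; constructor <;> (dsimp only; omega)
      · rw [mem_Box]; intro i; have := hs i; have := hκ0 i; have := hκ1 i
        constructor <;> (simp only [Pi.sub_apply]; omega)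
    · simp only [FF, Y2, w1, w2, w3, ← hg1, ks, k2, k3, one_ne_zero, if_false, if_true]
      rw [lab_add, hF, ← hκ]
      congr 1
      abel
    · simp only [Y3, w3, k3, one_ne_zero, if_false]

theorem roleD' {n m R r R' r' : ℕ} (hR : R = R' + r' + 2) (hr : r = r' + 1)
    (a b c d : Fin m) (x : LL n) (hx : x ∈ PP n m R' r' d) :
    ∃ u ∈ PP n m R r b, FF n m a b c d u = Y2 x ∧ Y2 u + Y3 u = Y3 x := by
  obtain ⟨⟨g1, sg⟩, ⟨tD, sD⟩⟩ := x
  rw [mem_PP] at hx
  obtain ⟨p, ht, hs⟩ := hx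
  dsimp only at p ht hs
  rw [mem_Box] at ht hs
  obtain ⟨g2, g3, q, hF, hsum, h31⟩ := roleD (par_col n m a) (par_col n m b) (par_col n m c)
    (par_col n m d) p
  set κ := carry g2 g3 with hκ
  have hκ0 : ∀ i, 0 ≤ κ i := carry_nonneg g2 g3
  have hκ1 : ∀ i, κ i ≤ 1 := carry_le g2 g3
  have hsg : par n (sg 1) = par n (g2 1) + par n (g3 1) := by
    rw [← hsum, Pi.add_apply, map_add]
  rcases types q with ⟨k2, k3⟩ | ⟨k2, k3⟩ | ⟨k2, k3⟩
  · -- LS
    have k1 : par n (g1 1) = 0 := by rw [← h31, k3]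
    have ks : par n (sg 1) = 1 := by rw [hsg, k2, k3]; decide
    refine ⟨((g2, g3), (tD - sD - κ, sD)), ?_, ?_, ?_⟩
    · rw [mem_PP]
      refine ⟨q, ?_, ?_⟩
      · rw [mem_Box]; intro i; have := ht i; have := hs i; have := hκ0 i; have := hκ1 i
        constructor <;> (simp only [Pi.sub_apply]; omega)
      · rw [mem_Box]; intro i; have := hs i; constructor <;> (dsimp only; omega)
    · simp only [FF, Y2, w1, w2, w3, hF, k1, k2, k3, one_ne_zero, if_false, if_true]
    · simp only [Y2, Y3, w2, w3, ks, k2, k3, one_ne_zero, if_false, if_true]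
      rw [lab_add, hsum, ← hκ]
      congr 1
      abel
  · -- SL
    have k1 : par n (g1 1) = 1 := by rw [← h31, k3]
    have ks : par n (sg 1) = 1 := by rw [hsg, k2, k3]; decide
    refine ⟨((g2, g3), (tD - sD, sD - κ)), ?_, ?_, ?_⟩
    · rw [mem_PP]
      refine ⟨q, ?_, ?_⟩
      · rw [mem_Box]; intro i; have := ht i; have := hs i
        constructor <;> (simp only [Pi.sub_apply]; omega)
      · rw [mem_Box]; intro i; have := hs i; have := hκ0 i; have := hκ1 i
        constructor <;> (simp only [Pi.sub_apply]; omega)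
    · simp only [FF, Y2, w1, w2, w3, hF, k1, k2, k3, ks, one_ne_zero, if_false, if_true,
        neg_sub]
    · simp only [Y2, Y3, w2, w3, ks, k2, k3, one_ne_zero, if_false, if_true]
      rw [lab_add, hsum, ← hκ]
      congr 1
      abel
  · -- D
    have k1 : par n (g1 1) = 1 := by rw [← h31, k3]
    have ks : par n (sg 1) = 0 := by rw [hsg, k2, k3]; decide
    refine ⟨((g2, g3), (tD, sD - κ)), ?_, ?_, ?_⟩
    · rw [mem_PP]
      refine ⟨q, ?_, ?_⟩
      · rw [mem_Box]; intro i; have := ht i; constructor <;> (dsimp only; omega)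
      · rw [mem_Box]; intro i; have := hs i; have := hκ0 i; have := hκ1 i
        constructor <;> (simp only [Pi.sub_apply]; omega)
    · simp only [FF, Y2, w1, w2, w3, hF, k1, k2, k3, ks, one_ne_zero, if_false, if_true]
    · simp only [Y2, Y3, w2, w3, ks, k2, k3, one_ne_zero, if_false, if_true]
      rw [lab_add, hsum, ← hκ]
      congr 1
      abel

open Classical in
theorem labelG : LabelG (Fin 3 → ℤ) := by
  intro m ε hε
  obtain ⟨n, hn⟩ : ∃ n : ℕ, m ≤ 2 ^ n := ⟨m, Nat.lt_two_pow_self.le⟩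
  obtain ⟨k, hk⟩ := exists_nat_gt (6 / ε)
  have hk0 : (0 : ℝ) < k := lt_trans (by positivity) hk
  have hk1 : 0 < k := by exact_mod_cast hk0
  set N := (Res n 1).card with hN
  have hNpos : 0 < N := card_Res_pos n
  refine ⟨LL n, inferInstance, PP n m ((k + 1) * (k + 2)) (k + 1), PP n m (k * (k + 2)) k,
    Y2, Y3, FF n m, N * ((2 * ((k + 1) * (k + 2))) ^ 3 * (2 * (k + 1)) ^ 3),
    N * ((2 * (k * (k + 2))) ^ 3 * (2 * k) ^ 3), by positivity, ?_, ?_, ?_, ?_, ?_, ?_⟩
  · push_cast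
    have h6 : 6 / ε < (k : ℝ) + 1 := by linarith
    have h7 : 6 / ((k : ℝ) + 1) < ε := by
      rw [div_lt_iff₀ (by positivity)]
      rw [div_lt_iff₀ hε] at h6
      linarith
    have h8 : (1 : ℝ) - ε ≤ ((k : ℝ) / (k + 1)) ^ 6 := by
      have hb := one_add_mul_le_pow (a := -(1 / ((k : ℝ) + 1))) (by
        have : 1 / ((k : ℝ) + 1) ≤ 1 := by
          rw [div_le_one (by positivity)]; linarith
        linarith) 6
      have e1 : (1 : ℝ) + -(1 / ((k : ℝ) + 1)) = (k : ℝ) / (k + 1) := by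
        field_simp
        ring
      rw [e1] at hb
      have e2 : (1 : ℝ) + ((6 : ℕ) : ℝ) * -(1 / ((k : ℝ) + 1)) = 1 - 6 / ((k : ℝ) + 1) := by
        push_cast; ring
      rw [e2] at hb
      linarith
    have e3 : (N : ℝ) * ((2 * ((k : ℝ) * (k + 2))) ^ 3 * (2 * (k : ℝ)) ^ 3) =
        ((k : ℝ) / (k + 1)) ^ 6 *
          ((N : ℝ) * ((2 * (((k : ℝ) + 1) * (k + 2))) ^ 3 * (2 * ((k : ℝ) + 1)) ^ 3)) := by
      have hne : (k : ℝ) + 1 ≠ 0 := by positivity
      field_simp
    rw [e3]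
    apply mul_le_mul_of_nonneg_right h8
    positivity
  · intro c
    refine ⟨card_PP _ _ _ _ _, card_PP _ _ _ _ _, ?_⟩
    intro x hx
    rw [mem_PP] at hx ⊢
    refine ⟨hx.1, ?_, ?_⟩
    · have := hx.2.1
      rw [mem_Box] at this ⊢
      intro i
      have h := this i
      have hle : ((k * (k + 2) : ℕ) : ℤ) ≤ (((k + 1) * (k + 2) : ℕ) : ℤ) := by
        exact_mod_cast Nat.mul_le_mul_right _ (by omega)
      constructor <;> linarith [h.1, h.2]
    · have := hx.2.2
      rw [mem_Box] at this ⊢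
      intro i
      have h := this i
      push_cast at h ⊢
      constructor <;> omega
  · intro c c' x x' hx hx' e2 e3
    exact Y_inj hn hx hx' e2 e3
  · intro a b c d x hx
    exact roleA' (by ring) rfl a b c d x hx
  · intro a b c d x hx
    exact roleC' (by ring) rfl a b c d x hx
  · intro a b c d x hx
    exact roleD' (by ring) rfl a b c d x hx

end Pool.Agent.H42F
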