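import Pool.Agent.H42F.Stm

/-!
# The leading level (`Lead`): the finite multiset of triples

Proof of `Pool.Agent.H42F.Lead`.
-/

set_option autoImplicit false

namespace Pool.Agent.H42F.LeadProof

open Finset

lemma cntR {α β : Type} (A : Finset α) (B : Finset β) (p : α × β → Prop) [DecidablePred p] (k : ℕ)
    (h : ∀ a ∈ A, (B.filter (fun b => p (a, b))).card * k ≤ B.card) :
    ((A ×ˢ B).filter p).card * k ≤ (A ×ˢ B).card := by
  classical
  rw [Finset.card_filter, Finset.sum_product, Finset.card_product, Finset.sum_mul]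
  calc ∑ a ∈ A, (∑ b ∈ B, if p (a, b) then 1 else 0) * k ≤ ∑ a ∈ A, B.card := by
        apply Finset.sum_le_sum
        intro a ha
        have := h a ha
        rwa [Finset.card_filter] at this
    _ = A.card * B.card := by simp

lemma cntL {α β : Type} (A : Finset α) (B : Finset β) (p : α × β → Prop) [DecidablePred p] (k : ℕ)
    (h : ∀ b ∈ B, (A.filter (fun a => p (a, b))).card * k ≤ A.card) :
    ((A ×ˢ B).filter p).card * k ≤ (A ×ˢ B).card := by
  classical
  rw [Finset.card_filter, Finset.sum_product_right, Finset.card_product, Finset.sum_mul]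
  calc ∑ b ∈ B, (∑ a ∈ A, if p (a, b) then 1 else 0) * k ≤ ∑ b ∈ B, A.card := by
        apply Finset.sum_le_sum
        intro b hb
        have := h b hb
        rwa [Finset.card_filter] at this
    _ = A.card * B.card := by simp [mul_comm]

lemma cntMod (N I k t : ℕ) (hN : 0 < N) (hk : k ≤ I) :
    ((range (N ^ I)).filter (fun x => x % N ^ k < t)).card ≤ N ^ (I - k) * t := by
  calc ((range (N ^ I)).filter (fun x => x % N ^ k < t)).card
      ≤ ((range (N ^ (I - k))) ×ˢ (range t)).card := by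
        apply Finset.card_le_card_of_injOn (fun x => (x / N ^ k, x % N ^ k))
        · intro x hx
          simp only [coe_filter, mem_range, Set.mem_ofPred_eq] at hx
          simp only [coe_product, coe_range, Set.mem_prod, Set.mem_Iio]
          refine ⟨?_, hx.2⟩
          rw [Nat.div_lt_iff_lt_mul (by positivity), ← pow_add, Nat.sub_add_cancel hk]
          exact hx.1
        · intro x _ y _ hxy
          simp only [Prod.mk.injEq] at hxy
          rw [← Nat.div_add_mod x (N ^ k), ← Nat.div_add_mod y (N ^ k), hxy.1, hxy.2]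
    _ = N ^ (I - k) * t := by simp

lemma cntMod' (N I k t : ℕ) (hN : 0 < N) (hk : k ≤ I) (hk1 : 1 ≤ k) (ht : t ≤ N ^ (k - 1)) :
    ((range (N ^ I)).filter (fun x => x % N ^ k < t)).card * N ≤ N ^ I := by
  calc ((range (N ^ I)).filter (fun x => x % N ^ k < t)).card * N
      ≤ (N ^ (I - k) * t) * N := Nat.mul_le_mul_right _ (cntMod N I k t hN hk)
    _ ≤ (N ^ (I - k) * N ^ (k - 1)) * N := by gcongr
    _ = N ^ I := by
        rw [← pow_add, ← pow_succ]
        congr 1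
        omega

abbrev Tau : Type := ℕ × ℕ × ℕ × ℕ × ℕ × ℕ × ℕ

section
variable (N : ℕ)

/-- `σ`. -/
def sg (w : Tau) : ℕ := 1 + w.2.1 % N ^ w.1
/-- `ρ`. -/
def rh (w : Tau) : ℕ := 1 + w.2.2.1 % N ^ (w.1 + 1)
/-- `X3`. -/
def X3 (w : Tau) : ℕ := 1 + w.2.2.2.2.2.2 % N ^ w.2.2.2.1
/-- `X2`. -/
def X2 (w : Tau) : ℕ := 1 + w.2.2.2.2.2.1 % N ^ (w.2.2.2.1 + sg N w)
/-- `X1`. -/
def X1 (w : Tau) : ℕ := 1 + w.2.2.2.2.1 % N ^ (w.2.2.2.1 + sg N w + rh N w)
/-- `σ'`. -/
def sp (w : Tau) : ℕ := 1 + w.2.2.1 % N ^ (w.1 - 1)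
/-- `x3`. -/
def y3 (w : Tau) : ℕ := 1 + w.2.2.2.2.1 % N ^ (w.2.2.2.1 - sp N w)
/-- `x2`. -/
def y2 (w : Tau) : ℕ := 1 + w.2.2.2.2.1 % N ^ (w.2.2.2.1 + sp N w)

/-- `φA`. -/
def phA (w : Tau) : Tau :=
  (w.1 - 1, w.2.2.1, w.2.1, w.2.2.2.1 - sp N w, w.2.2.2.2.2.1, w.2.2.2.2.2.2, w.2.2.2.2.1)
/-- `φD`. -/
def phD (w : Tau) : Tau :=
  (w.1 - 1, w.2.2.1, w.2.1, w.2.2.2.1 - sp N w, w.2.2.2.2.2.1, w.2.2.2.2.2.2 - y3 N w, w.2.2.2.2.1)
/-- `φC`. -/
def phC (w : Tau) : Tau :=
  (w.1 - 1, w.2.2.1, w.2.1 - sp N w, w.2.2.2.1, w.2.2.2.2.2.1 - y2 N w, w.2.2.2.2.1, w.2.2.2.2.2.2)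

/-- `ψA`. -/
def psA (w : Tau) : Tau :=
  (w.1 + 1, w.2.2.1, w.2.1, w.2.2.2.1 + sg N w, w.2.2.2.2.2.2, w.2.2.2.2.1, w.2.2.2.2.2.1)
/-- `ψD`. -/
def psD (w : Tau) : Tau :=
  (w.1 + 1, w.2.2.1, w.2.1, w.2.2.2.1 + sg N w, w.2.2.2.2.2.2, w.2.2.2.2.1,
    w.2.2.2.2.2.1 + X3 N w)
/-- `ψC`. -/
def psC (w : Tau) : Tau :=
  (w.1 + 1, w.2.2.1 + sg N w, w.2.1, w.2.2.2.1, w.2.2.2.2.2.1, w.2.2.2.2.1 + X2 N w,
    w.2.2.2.2.2.2)

/-- The good elements. -/
def Good (w : Tau) : Prop :=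
  1 ≤ w.1 ∧ sp N w ≤ w.2.2.2.1 ∧ sp N w ≤ w.2.1 % N ^ w.1 ∧
    y3 N w ≤ w.2.2.2.2.2.2 % N ^ w.2.2.2.1 ∧
    y2 N w ≤ w.2.2.2.2.2.1 % N ^ (w.2.2.2.1 + sg N w)

instance : DecidablePred (Good N) := fun w => by unfold Good; infer_instance

/-- The set `Ω`. -/
def Om (T M I : ℕ) : Finset Tau :=
  range T ×ˢ range (N ^ (T + 1)) ×ˢ range (N ^ (T + 1)) ×ˢ range M ×ˢ range (N ^ I) ×ˢ
    range (N ^ I) ×ˢ range (N ^ I)

end

/-- Modular subtraction. -/
lemma sub_mod_of_le (a x n : ℕ) (h : x ≤ a % n) : (a - x) % n = a % n - x := by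
  rcases Nat.eq_zero_or_pos n with rfl | hn
  · simp
  have h1 : a - x = (a % n - x) + n * (a / n) := by
    have := Nat.mod_add_div a n
    omega
  rw [h1, Nat.add_mul_mod_self_left, Nat.mod_eq_of_lt]
  have := Nat.mod_lt a hn
  omega

lemma le_of_le_mod (a x n : ℕ) (h : x ≤ a % n) : x ≤ a := h.trans (Nat.mod_le a n)

lemma mem_Om (N T M I : ℕ) (w : Tau) : w ∈ Om N T M I ↔
    w.1 < T ∧ w.2.1 < N ^ (T + 1) ∧ w.2.2.1 < N ^ (T + 1) ∧ w.2.2.2.1 < M ∧
      w.2.2.2.2.1 < N ^ I ∧ w.2.2.2.2.2.1 < N ^ I ∧ w.2.2.2.2.2.2 < N ^ I := by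
  simp [Om]

lemma relA (N T M I : ℕ) (w : Tau) (hw : w ∈ Om N T M I) (hg : Good N w) :
    phA N w ∈ Om N T M I ∧ psA N (phA N w) = w ∧ X1 N (phA N w) = X2 N w ∧
      X2 N (phA N w) = X3 N w := by
  obtain ⟨s, g, h, m, α, β, ζ⟩ := w
  rw [mem_Om] at hw
  obtain ⟨h1, h2, h3, h4, h5⟩ := hg
  simp only [sp, sg, y3, y2] at h1 h2 h3 h4 h5 hw
  obtain ⟨s, rfl⟩ : ∃ s', s = s' + 1 := ⟨s - 1, by omega⟩
  simp only [Nat.add_sub_cancel] at *
  have e : m - (1 + h % N ^ s) + (1 + h % N ^ s) = m := by omega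
  refine ⟨?_, ?_, ?_, ?_⟩
  · rw [mem_Om]
    simp only [phA, sp, Nat.add_sub_cancel]
    obtain ⟨q1, q2, q3, q4, q5, q6, q7⟩ := hw
    exact ⟨by omega, q3, q2, lt_of_le_of_lt (Nat.sub_le _ _) q4, q6, q7, q5⟩
  · simp only [phA, psA, sp, sg, Nat.add_sub_cancel, e]
  · simp only [phA, X1, X2, sp, sg, rh, Nat.add_sub_cancel, e]
  · simp only [phA, X3, X2, sp, sg, Nat.add_sub_cancel, e]

lemma relD (N T M I : ℕ) (w : Tau) (hw : w ∈ Om N T M I) (hg : Good N w) :
    phD N w ∈ Om N T M I ∧ psD N (phD N w) = w ∧ X1 N (phD N w) = X2 N w ∧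
      X2 N (phD N w) + X3 N (phD N w) = X3 N w := by
  obtain ⟨s, g, h, m, α, β, ζ⟩ := w
  rw [mem_Om] at hw
  obtain ⟨h1, h2, h3, h4, h5⟩ := hg
  simp only [sp, sg, y3, y2] at h1 h2 h3 h4 h5 hw
  obtain ⟨s, rfl⟩ : ∃ s', s = s' + 1 := ⟨s - 1, by omega⟩
  simp only [Nat.add_sub_cancel] at *
  have e : m - (1 + h % N ^ s) + (1 + h % N ^ s) = m := by omega
  have h4' := le_of_le_mod _ _ _ h4
  refine ⟨?_, ?_, ?_, ?_⟩
  · rw [mem_Om]
    simp only [phD, sp, y3, Nat.add_sub_cancel]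
    obtain ⟨q1, q2, q3, q4, q5, q6, q7⟩ := hw
    exact ⟨by omega, q3, q2, lt_of_le_of_lt (Nat.sub_le _ _) q4, q6,
      lt_of_le_of_lt (Nat.sub_le _ _) q7, q5⟩
  · simp only [phD, psD, sp, sg, y3, X3, Nat.add_sub_cancel, e, Prod.mk.injEq, true_and]
    omega
  · simp only [phD, X1, X2, sp, sg, rh, Nat.add_sub_cancel, e]
  · simp only [phD, X3, X2, sp, sg, y3, Nat.add_sub_cancel, e]
    rw [sub_mod_of_le _ _ _ h4]
    omega

lemma relC (N T M I : ℕ) (w : Tau) (hw : w ∈ Om N T M I) (hg : Good N w) :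
    phC N w ∈ Om N T M I ∧ psC N (phC N w) = w ∧ X1 N (phC N w) + X2 N (phC N w) = X2 N w ∧
      X3 N (phC N w) = X3 N w := by
  obtain ⟨s, g, h, m, α, β, ζ⟩ := w
  rw [mem_Om] at hw
  obtain ⟨h1, h2, h3, h4, h5⟩ := hg
  simp only [sp, sg, y3, y2] at h1 h2 h3 h4 h5 hw
  obtain ⟨s, rfl⟩ : ∃ s', s = s' + 1 := ⟨s - 1, by omega⟩
  simp only [Nat.add_sub_cancel] at *
  have h3' := le_of_le_mod _ _ _ h3
  have h5' := le_of_le_mod _ _ _ h5
  have e : m + (1 + h % N ^ s) + (1 + (g - (1 + h % N ^ s)) % N ^ (s + 1)) =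
      m + (1 + g % N ^ (s + 1)) := by
    rw [sub_mod_of_le _ _ _ h3]
    omega
  refine ⟨?_, ?_, ?_, ?_⟩
  · rw [mem_Om]
    simp only [phC, sp, y2, Nat.add_sub_cancel]
    obtain ⟨q1, q2, q3, q4, q5, q6, q7⟩ := hw
    exact ⟨by omega, q3, lt_of_le_of_lt (Nat.sub_le _ _) q2, q4,
      lt_of_le_of_lt (Nat.sub_le _ _) q6, q5, q7⟩
  · simp only [phC, psC, sp, sg, y2, X2, Nat.add_sub_cancel, Prod.mk.injEq, true_and, and_true]
    omega
  · simp only [phC, X1, X2, sp, sg, rh, y2, Nat.add_sub_cancel, e]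
    rw [sub_mod_of_le _ _ _ h5]
    omega
  · simp only [phC, X3]

lemma one_add_mod_le (x n : ℕ) (hn : 0 < n) : 1 + x % n ≤ n := by
  have := Nat.mod_lt x hn
  omega

section count
variable (N T M I : ℕ)

lemma c0 : ((Om N T M I).filter (fun w => w.1 = 0)).card * T ≤ (Om N T M I).card := by
  apply cntL
  intro b _
  simp only [card_range]
  calc ((range T).filter (fun a => (a, b).1 = 0)).card * T ≤ 1 * T := by
        gcongr
        calc ((range T).filter (fun a => (a, b).1 = 0)).card ≤ ({0} : Finset ℕ).card := by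
              apply Finset.card_le_card
              intro x hx
              simp only [mem_filter] at hx
              simp [hx.2]
          _ = 1 := by simp
    _ = T := by simp

lemma c1 (K : ℕ) (hN : 0 < N) (hM : M = K * N ^ T) :
    ((Om N T M I).filter (fun w => w.2.2.2.1 < sp N w)).card * K ≤ (Om N T M I).card := by
  apply cntR
  intro s hs
  apply cntR
  intro g hg
  apply cntR
  intro h hh
  apply cntL
  intro b hb
  simp only [card_range]
  calc ((range M).filter (fun a => (s, g, h, a, b).2.2.2.1 < sp N (s, g, h, a, b))).card * K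
      ≤ (N ^ T) * K := by
        gcongr
        calc ((range M).filter (fun a => (s, g, h, a, b).2.2.2.1 < sp N (s, g, h, a, b))).card
            ≤ (range (N ^ T)).card := by
              apply Finset.card_le_card
              intro x hx
              simp only [mem_filter, mem_range, sp] at hx
              simp only [mem_range] at hs ⊢
              have h1 : 1 + h % N ^ (s - 1) ≤ N ^ (s - 1) := one_add_mod_le _ _ (by positivity)
              have h2 : N ^ (s - 1) ≤ N ^ T := Nat.pow_le_pow_right hN (by omega)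
              omega
          _ = N ^ T := by simp
    _ = M := by rw [hM, mul_comm]

lemma c2 (hN : 0 < N) :
    ((Om N T M I).filter (fun w => 1 ≤ w.1 ∧ w.2.1 % N ^ w.1 < sp N w)).card * N
      ≤ (Om N T M I).card := by
  apply cntR
  intro s hs
  apply cntL
  intro b hb
  obtain ⟨h, b⟩ := b
  simp only [card_range]
  by_cases hs1 : 1 ≤ s
  · simp only [mem_range] at hs
    simp only [sp, hs1, true_and]
    exact cntMod' N (T + 1) s _ hN (by omega) hs1 (one_add_mod_le _ _ (by positivity))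
  · simp [hs1]

lemma c3 (hN : 0 < N) (hI : M ≤ I) :
    ((Om N T M I).filter (fun w => sp N w ≤ w.2.2.2.1 ∧
      w.2.2.2.2.2.2 % N ^ w.2.2.2.1 < y3 N w)).card * N ≤ (Om N T M I).card := by
  apply cntR
  intro s hs
  apply cntR
  intro g hg
  apply cntR
  intro h hh
  apply cntR
  intro m hm
  apply cntR
  intro a ha
  apply cntR
  intro b hb
  simp only [card_range, mem_range] at *
  by_cases hs1 : 1 + h % N ^ (s - 1) ≤ m
  · simp only [sp, y3, hs1, true_and]
    generalize h % N ^ (s - 1) = u at *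
    refine cntMod' N I m _ hN (by omega) (by omega) ?_
    refine (one_add_mod_le _ _ (by positivity)).trans ?_
    exact Nat.pow_le_pow_right hN (by omega)
  · simp [sp, hs1]

lemma c4 (hN : 0 < N) (hI : M + N ^ (T + 1) ≤ I) :
    ((Om N T M I).filter (fun w => sp N w ≤ w.2.1 % N ^ w.1 ∧
      w.2.2.2.2.2.1 % N ^ (w.2.2.2.1 + sg N w) < y2 N w)).card * N ≤ (Om N T M I).card := by
  apply cntR
  intro s hs
  apply cntR
  intro g hg
  apply cntR
  intro h hh
  apply cntR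
  intro m hm
  apply cntR
  intro a ha
  apply cntL
  intro z hz
  simp only [card_range, mem_range] at *
  by_cases hs1 : 1 + h % N ^ (s - 1) ≤ g % N ^ s
  · simp only [sp, sg, y2, hs1, true_and]
    have h1 : 1 + g % N ^ s ≤ N ^ s := one_add_mod_le _ _ (by positivity)
    have h2 : N ^ s ≤ N ^ (T + 1) := Nat.pow_le_pow_right hN (by omega)
    generalize h % N ^ (s - 1) = u at *
    generalize g % N ^ s = v at *
    refine cntMod' N I (m + (1 + v)) _ hN (by omega) (by omega) ?_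
    refine (one_add_mod_le _ _ (by positivity)).trans ?_
    exact Nat.pow_le_pow_right hN (by omega)
  · simp [sp, hs1]

end count

theorem t : Pool.Agent.H42F.Lead := by
  intro ε hε
  obtain ⟨K, hK⟩ : ∃ K : ℕ, 5 / ε + 2 ≤ (K : ℝ) := exists_nat_ge _
  have hK2 : (2 : ℝ) ≤ K := by
    have : 0 < 5 / ε := by positivity
    linarith
  have hK0 : 0 < K := by
    have : (0 : ℝ) < K := by linarith
    exact_mod_cast this
  set M : ℕ := K * K ^ K with hM
  set I : ℕ := M + K ^ (K + 1) with hI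
  set Ω : Finset Tau := Om K K M I with hΩ
  have hM0 : 0 < M := by positivity
  refine ⟨Tau, Classical.decEq _, Ω, Ω.filter (Good K), X1 K, X2 K, X3 K, phA K, phC K, phD K,
    psA K, psC K, psD K, ?_, Finset.filter_subset _ _, ?_, ?_, ?_, ?_, ?_⟩
  · refine ⟨(0, 0, 0, 0, 0, 0, 0), ?_⟩
    rw [hΩ, mem_Om]
    have h1 : 0 < K ^ (K + 1) := by positivity
    have h2 : 0 < K ^ I := by positivity
    exact ⟨hK0, h1, h1, hM0, h2, h2, h2⟩
  · have hsplit : Ω.card ≤ (Ω.filter (Good K)).card +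
        ((Ω.filter (fun w => w.1 = 0)).card + (Ω.filter (fun w => w.2.2.2.1 < sp K w)).card +
        (Ω.filter (fun w => 1 ≤ w.1 ∧ w.2.1 % K ^ w.1 < sp K w)).card +
        (Ω.filter (fun w => sp K w ≤ w.2.2.2.1 ∧
          w.2.2.2.2.2.2 % K ^ w.2.2.2.1 < y3 K w)).card +
        (Ω.filter (fun w => sp K w ≤ w.2.1 % K ^ w.1 ∧
          w.2.2.2.2.2.1 % K ^ (w.2.2.2.1 + sg K w) < y2 K w)).card) := by
      classical
      refine (Finset.card_le_card (t := (Ω.filter (Good K)) ∪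
        (((((Ω.filter (fun w => w.1 = 0)) ∪ (Ω.filter (fun w => w.2.2.2.1 < sp K w))) ∪
        (Ω.filter (fun w => 1 ≤ w.1 ∧ w.2.1 % K ^ w.1 < sp K w))) ∪
        (Ω.filter (fun w => sp K w ≤ w.2.2.2.1 ∧
          w.2.2.2.2.2.2 % K ^ w.2.2.2.1 < y3 K w))) ∪
        (Ω.filter (fun w => sp K w ≤ w.2.1 % K ^ w.1 ∧
          w.2.2.2.2.2.1 % K ^ (w.2.2.2.1 + sg K w) < y2 K w)))) ?_).trans ?_
      · intro w hw
        simp only [mem_union, mem_filter, hw, true_and, Good]
        by_contra hcon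
        simp only [not_or, not_and_or, not_le, not_lt] at hcon
        omega
      · refine (Finset.card_union_le _ _).trans ?_
        gcongr
        refine (Finset.card_union_le _ _).trans ?_
        gcongr
        refine (Finset.card_union_le _ _).trans ?_
        gcongr
        refine (Finset.card_union_le _ _).trans ?_
        gcongr
        exact Finset.card_union_le _ _
    have e0 := c0 K K M I
    have e1 := c1 K K M I K hK0 hM
    have e2 := c2 K K M I hK0
    have e3 := c3 K K M I hK0 (by omega)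
    have e4 := c4 K K M I hK0 (by omega)
    rw [← hΩ] at e0 e1 e2 e3 e4
    have htot : K * Ω.card ≤ K * (Ω.filter (Good K)).card + 5 * Ω.card := by
      have := Nat.mul_le_mul_left K hsplit
      nlinarith
    have htotR : (K : ℝ) * Ω.card ≤ K * (Ω.filter (Good K)).card + 5 * Ω.card := by
      exact_mod_cast htot
    have hKpos : (0 : ℝ) < K := by linarith
    have h5 : 5 ≤ ε * K := by
      have h6 : 5 / ε ≤ K := by linarith
      rw [div_le_iff₀ hε] at h6
      linarith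
    have hc : (0 : ℝ) ≤ Ω.card := by positivity
    have : (K : ℝ) * ((1 - ε) * Ω.card) ≤ K * (Ω.filter (Good K)).card := by nlinarith
    exact le_of_mul_le_mul_left this hKpos
  · intro ω _
    simp only [X1, X2, X3]
    exact ⟨Nat.add_pos_left one_pos _, Nat.add_pos_left one_pos _, Nat.add_pos_left one_pos _⟩
  · intro ω hω
    rw [Finset.mem_filter] at hω
    exact relA K K M I ω hω.1 hω.2
  · intro ω hω
    rw [Finset.mem_filter] at hω
    exact relC K K M I ω hω.1 hω.2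
  · intro ω hω
    rw [Finset.mem_filter] at hω
    exact relD K K M I ω hω.1 hω.2

end Pool.Agent.H42F.LeadProof
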